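import Mathlib
import Pool.Agent.H18.CMOc

open Filter Topology

namespace Pool.Agent.Results.MP_a187e6_nt.Exponent

/-- MO functions; the value `f 0` plays no role -/
def IsMO (f : ℕ → ℂ) : Prop :=
  f 1 = 1 ∧ (∀ m n : ℕ, 0 < m → 0 < n → Nat.Coprime m n → f (m * n) = f m * f n) ∧
  Tendsto (fun N : ℕ => ∑ n ∈ Finset.Icc 1 N, f n) atTop (𝓝 0) ∧
  ∀ p : ℕ, p.Prime → ∃ c : ℂ, c ≠ 0 ∧
    Tendsto (fun K : ℕ => ∑ k ∈ Finset.range K, f (p ^ k)) atTop (𝓝 c)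

/-- the summatory function -/
noncomputable def S (f : ℕ → ℂ) (x : ℝ) : ℂ := ∑ n ∈ Finset.Icc 1 ⌊x⌋₊, f n

/-- every interval `(x, x + x ^ η]` with `x` large holds `≫ x ^ η / log x` primes -/
def ShortIntervals (η : ℝ) : Prop :=
  ∃ c : ℝ, 0 < c ∧ ∀ᶠ x : ℝ in atTop, c * x ^ η / Real.log x ≤
    (Nat.primeCounting ⌊x + x ^ η⌋₊ : ℝ) - Nat.primeCounting ⌊x⌋₊

theorem result :
    (∀ f, IsMO f → ∀ L : ℝ, L < 1 / 2 → ∃ᶠ x : ℝ in atTop, L < x * ‖S f x‖) ∧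
    (∀ η κ : ℝ, 0 < η → 0 < κ → η + κ < 1 → ShortIntervals η →
      ∃ f, IsMO f ∧ ∃ C : ℝ, ∀ x : ℝ, 1 ≤ x → ‖S f x‖ ≤ C * x ^ (-κ)) ∧
    (∀ η : ℝ, 0 < η → η < 1 / 2 → ShortIntervals η →
      ∃ f, IsMO f ∧ Tendsto (fun x : ℝ => √x * ‖S f x‖) atTop (𝓝 0)) := by
  have H2 : ∀ η κ : ℝ, 0 < η → 0 < κ → η + κ < 1 → ShortIntervals η →
      ∃ f, IsMO f ∧ ∃ C : ℝ, ∀ x : ℝ, 1 ≤ x → ‖S f x‖ ≤ C * x ^ (-κ) := by
    rintro η κ hη hκ h ⟨c, hc, H⟩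
    obtain ⟨f, h1, h2, h3, h4⟩ := Pool.Agent.H18.CMOc.main' hη hκ h hc H
    exact ⟨f, ⟨h1, fun m n a b _ => h2 m n a b, h3, Pool.Agent.H18.CMOc.loc f h1 h2 h3⟩, h4⟩
  refine ⟨?_, H2, fun η hη h H => ?_⟩
  · rintro f ⟨h1, hm, -, hloc⟩ L hL
    have h := Pool.Agent.H18.MOsum.main f h1 hm hloc hL
    refine (tendsto_natCast_atTop_atTop (R := ℝ)).frequently ?_
    simpa [S] using h
  · obtain ⟨f, hf, C, hC⟩ := H2 η (3 / 4 - η / 2) hη (by linarith) (by linarith) H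
    exact ⟨f, hf, Pool.Agent.H18.CMOc.sqrt_decay _ (fun x => norm_nonneg _) (by linarith) hC⟩

end Pool.Agent.Results.MP_a187e6_nt.Exponent
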